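import Mathlib

/-!
# Schemes over the rational numbers: points and Brauer classes

All schemes below are schemes over `Spec ℚ`. There is at most one morphism from a scheme to
`Spec ℚ`, so every morphism between such schemes is a morphism over `Spec ℚ`, and a morphism
`Spec K ⟶ Y` with `K` a field of characteristic zero is a `K`-valued point of `Y`.
-/

open CategoryTheory AlgebraicGeometry TensorProduct

namespace BB37

/-- the spectrum of a commutative ring -/
noncomputable abbrev Sp (R : Type) [CommRing R] : Scheme.{0} := Spec (CommRingCat.of R)

/-- the morphism of spectra given by a ring homomorphism -/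
noncomputable abbrev spMap {R S : Type} [CommRing R] [CommRing S] (φ : R →+* S) : Sp S ⟶ Sp R :=
  Spec.map (CommRingCat.ofHom φ)

/-- the point of `Y` given by a homomorphism from the ring of an affine open set -/
noncomputable abbrev pointOf {Y : Scheme.{0}} {U : Y.Opens} (hU : IsAffineOpen U) {R : Type}
    [CommRing R] (φ : Γ(Y, U) →+* R) : Sp R ⟶ Y :=
  Spec.map (CommRingCat.ofHom φ) ≫ hU.fromSpec

/-- `x` is the Brauer class of the central simple algebra `B` -/
def IsClassOf (K : Type) [Field K] (B : Type) [Ring B] [Algebra K B]
    (x : BrauerGroup.{0, 0} K) : Prop :=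
  ∃ C : CSA.{0, 0} K, x = Quotient.mk (Brauer.CSA_Setoid K) C ∧ Nonempty (B ≃ₐ[K] C)

/-- A Brauer class of `Y`, given by its values at all field-valued points, which is Zariski
locally on `Y` the class of an Azumaya algebra.

For a smooth variety `Y` these are exactly the elements of `H^2_et(Y, G_m)`: a class in
`H^2_et(Y, G_m)` is Zariski locally the class of an Azumaya algebra (Gabber), which gives such a
family of values; conversely the algebras of such a family have the same class at the generic
point of `Y`, this class is unramified in codimension one and hence lies in `H^2_et(Y, G_m)`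
(purity), and it has the given values. -/
structure BrClass (Y : Scheme.{0}) where
  /-- the value at a point -/
  ev : ∀ (K : Type) [Field K] [CharZero K], (Sp K ⟶ Y) → BrauerGroup.{0, 0} K
  /-- locally the values are the fibres of an Azumaya algebra -/
  loc : ∀ y : Y, ∃ (U : Y.Opens) (hU : IsAffineOpen U) (A : Type) (_ : Ring A)
    (_ : Algebra Γ(Y, U) A), y ∈ U ∧ IsAzumaya Γ(Y, U) A ∧
    ∀ (K : Type) [Field K] [CharZero K] (φ : Γ(Y, U) →+* K),
      letI := φ.toAlgebra
      IsClassOf K (K ⊗[Γ(Y, U)] A) (ev K (pointOf hU φ))

/-- the topology on the `K`-points: a set is open if its intersection with `U(K)` is open for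
every affine open `U`, where `U(K) = Hom(Γ(Y, U), K)` has the coarsest topology for which all
regular functions on `U` are continuous -/
@[reducible] noncomputable def ptTop (Y : Scheme.{0}) (K : Type) [Field K] [TopologicalSpace K] :
    TopologicalSpace (Sp K ⟶ Y) :=
  ⨆ U : Y.affineOpens, TopologicalSpace.coinduced (fun φ : Γ(Y, U.1) →+* K => pointOf U.2 φ)
    (⨅ f : Γ(Y, U.1), TopologicalSpace.induced (fun φ : Γ(Y, U.1) →+* K => φ f) inferInstance)

attribute [local instance] MvPolynomial.gradedAlgebra in
/-- projective space over the rational numbers -/
noncomputable abbrev PP (n : ℕ) : Scheme.{0} :=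
  Proj (MvPolynomial.homogeneousSubmodule (Fin (n + 1)) ℚ)

end BB37
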