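import Pool.Agent.Lib.MP_bb37eb_nt.ST.Base

/-!
# The Brauer-Manin set of a scheme over the rational numbers, and the statement
-/

open CategoryTheory AlgebraicGeometry TensorProduct

namespace BB37

/-- the elements of `Nat.Primes` are prime numbers -/
theorem fact_primes (p : Nat.Primes) : Fact (p : ℕ).Prime := ⟨p.2⟩

attribute [local instance] fact_primes

/-- the adelic points of a proper scheme over the rational numbers: a real point, and a `p`-adic
point for every prime number `p` -/
abbrev AdPts (Y : Scheme.{0}) : Type :=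
  (Sp ℝ ⟶ Y) × (∀ p : Nat.Primes, Sp ℚ_[(p : ℕ)] ⟶ Y)

/-- the product topology on the adelic points -/
@[reducible] noncomputable def adPtsTop (Y : Scheme.{0}) : TopologicalSpace (AdPts Y) :=
  @instTopologicalSpaceProd _ _ (ptTop Y ℝ)
    (@Pi.topologicalSpace _ _ fun p : Nat.Primes => ptTop Y ℚ_[(p : ℕ)])

/-- the rational points, embedded diagonally in the adelic points -/
noncomputable def ratAdPts (Y : Scheme.{0}) : Set (AdPts Y) :=
  Set.range fun P : Sp ℚ ⟶ Y =>
    (spMap (algebraMap ℚ ℝ) ≫ P, fun p : Nat.Primes => spMap (algebraMap ℚ ℚ_[(p : ℕ)]) ≫ P)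

/-- `x` is the image in `Br K` of the class in `Br ℚ` of the central simple algebra `B` -/
def ComesFrom (K : Type) [Field K] [CharZero K] (B : CSA.{0, 0} ℚ) (x : BrauerGroup.{0, 0} K) :
    Prop :=
  IsClassOf K (K ⊗[ℚ] B) x

/-- the Brauer-Manin set: the values of every Brauer class come from a single class over `ℚ`;
by the theorem of Albert, Brauer, Hasse and Noether this means that the sum of the local
invariants is zero -/
def BMpts (Y : Scheme.{0}) : Set (AdPts Y) :=
  {M | ∀ α : BrClass Y, ∃ B : CSA.{0, 0} ℚ, ComesFrom ℝ B (α.ev ℝ M.1) ∧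
    ∀ p : Nat.Primes, ComesFrom ℚ_[(p : ℕ)] B (α.ev ℚ_[(p : ℕ)] (M.2 p))}

/-- the closure of the rational points is the Brauer-Manin set: `Y(ℚ) = Y(A)^Br` -/
def OnlyBM (Y : Scheme.{0}) : Prop := @closure _ (adPtsTop Y) (ratAdPts Y) = BMpts Y

/-- the negated form of the question, over the field of rational numbers -/
def NegatedForm : Prop :=
  ∃ (X : Scheme.{0}) (f : X ⟶ Sp ℚ) (p : X ⟶ PP 1),
    -- `X` is projective, smooth and geometrically integral
    (∃ (n : ℕ) (i : X ⟶ PP n), IsClosedImmersion i) ∧ IsProper f ∧ Smooth f ∧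
    GeometricallyIntegral f ∧
    -- `p` is proper and surjective, all fibres are geometrically integral, the generic fibre is
    -- smooth
    IsProper p ∧ Surjective p ∧ GeometricallyIntegral p ∧
    (∀ y : PP 1, IsGenericPoint y Set.univ → Smooth (p.fiberToSpecResidueField y)) ∧
    -- almost all fibres over rational points are smooth (they are also proper and geometrically
    -- integral)
    {P : Sp ℚ ⟶ PP 1 | ¬ Smooth (Limits.pullback.snd p P)}.Finite ∧
    -- almost all fibres over rational points satisfy `X_P(ℚ) = X_P(A)^Br`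
    {P : Sp ℚ ⟶ PP 1 | ¬ OnlyBM (Limits.pullback p P)}.Finite ∧
    -- but the closure of `X(ℚ)` is strictly smaller than `X(A)^Br`
    @closure _ (adPtsTop X) (ratAdPts X) ⊂ BMpts X

end BB37
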