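import Pool.Agent.Lib.MP_bb37eb_nt.ST.Statement
import Pool.Agent.Lib.MP_bb37eb_nt.SCH.Defs

/-!
# Adelic points as families indexed by places, and as pairs
-/

open CategoryTheory AlgebraicGeometry TensorProduct

namespace BB37

attribute [local instance] fact_primes

/-- families indexed by the places, and pairs -/
def adEquiv (Y : Scheme.{0}) : Adelic Y ≃ AdPts Y where
  toFun M := (M none, fun p => M (some p))
  invFun N v := match v with
    | none => N.1
    | some p => N.2 p
  left_inv M := by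
    funext v
    rcases v with _ | p <;> rfl
  right_inv N := rfl

theorem adEquiv_continuous (Y : Scheme.{0}) :
    @Continuous _ _ (adTop Y) (adPtsTop Y) (adEquiv Y) := by
  let _ : ∀ w : Place, TopologicalSpace (Sp (Kv w) ⟶ Y) := fun w => ptTop Y (Kv w)
  let _ : TopologicalSpace (Sp ℝ ⟶ Y) := ptTop Y ℝ
  let _ : ∀ p : Nat.Primes, TopologicalSpace (Sp ℚ_[(p : ℕ)] ⟶ Y) := fun p => ptTop Y ℚ_[(p : ℕ)]
  refine Continuous.prodMk ?_ ?_
  · exact continuous_apply (none : Place)
  · refine continuous_pi fun p => ?_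
    exact continuous_apply (some p : Place)

theorem adEquiv_symm_continuous (Y : Scheme.{0}) :
    @Continuous _ _ (adPtsTop Y) (adTop Y) (adEquiv Y).symm := by
  let _ : ∀ w : Place, TopologicalSpace (Sp (Kv w) ⟶ Y) := fun w => ptTop Y (Kv w)
  let _ : TopologicalSpace (Sp ℝ ⟶ Y) := ptTop Y ℝ
  let _ : ∀ p : Nat.Primes, TopologicalSpace (Sp ℚ_[(p : ℕ)] ⟶ Y) := fun p => ptTop Y ℚ_[(p : ℕ)]
  refine continuous_pi fun v => ?_
  rcases v with _ | p
  · exact continuous_fst
  · exact (continuous_apply p).comp continuous_snd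

/-- the homeomorphism -/
def adHomeo (Y : Scheme.{0}) : @Homeomorph (Adelic Y) (AdPts Y) (adTop Y) (adPtsTop Y) :=
  @Homeomorph.mk _ _ (adTop Y) (adPtsTop Y) (adEquiv Y) (adEquiv_continuous Y)
    (adEquiv_symm_continuous Y)

theorem adEquiv_ratPts (Y : Scheme.{0}) : adEquiv Y '' ratPts Y = ratAdPts Y := by
  rw [ratPts, ratAdPts, ← Set.range_comp]
  rfl

theorem adEquiv_mem_BMpts (Y : Scheme.{0}) (M : Adelic Y) :
    adEquiv Y M ∈ BMpts Y ↔ M ∈ BMset Y := by
  constructor
  · intro h α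
    obtain ⟨B, h1, h2⟩ := h α
    refine ⟨B, fun v => ?_⟩
    rcases v with _ | p
    · exact h1
    · exact h2 p
  · intro h α
    obtain ⟨B, hB⟩ := h α
    exact ⟨B, hB none, fun p => hB (some p)⟩

theorem adEquiv_BMset (Y : Scheme.{0}) : adEquiv Y '' BMset Y = BMpts Y := by
  ext N
  constructor
  · rintro ⟨M, hM, rfl⟩
    exact (adEquiv_mem_BMpts Y M).2 hM
  · intro h
    refine ⟨(adEquiv Y).symm N, ?_, (adEquiv Y).apply_symm_apply N⟩
    rw [← adEquiv_mem_BMpts, (adEquiv Y).apply_symm_apply]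
    exact h

theorem adEquiv_closure (Y : Scheme.{0}) :
    adEquiv Y '' (@closure _ (adTop Y) (ratPts Y)) = @closure _ (adPtsTop Y) (ratAdPts Y) := by
  rw [← adEquiv_ratPts]
  exact @Homeomorph.image_closure _ _ (adTop Y) (adPtsTop Y) (adHomeo Y) (ratPts Y)

theorem onlyBM_iff (Y : Scheme.{0}) : OnlyBM Y ↔ BMOnly Y := by
  rw [OnlyBM, BMOnly, ← adEquiv_closure, ← adEquiv_BMset]
  exact (adEquiv Y).injective.image_injective.eq_iff

theorem closure_ssubset_iff (Y : Scheme.{0}) :
    @closure _ (adPtsTop Y) (ratAdPts Y) ⊂ BMpts Y ↔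
      @closure _ (adTop Y) (ratPts Y) ⊂ BMset Y := by
  rw [← adEquiv_closure, ← adEquiv_BMset, ssubset_iff_subset_not_subset,
    ssubset_iff_subset_not_subset, Set.image_subset_image_iff (adEquiv Y).injective,
    Set.image_subset_image_iff (adEquiv Y).injective]

theorem negatedForm_of (h : Disproof) : NegatedForm := by
  obtain ⟨X, f, p, h1, h2, h3, h4, h5, h6, h7, h8, h9, h10, h11⟩ := h
  refine ⟨X, f, p, h1, h2, h3, h4, h5, h6, h7, h8, h9, ?_, (closure_ssubset_iff X).2 h11⟩
  simpa only [onlyBM_iff] using h10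

end BB37
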